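import Pool.Agent.Helper69.LW.Fin

/-!
# The growth of the number of values of the LMO invariant

Definitions (`Pool.Agent.Y466.LM.Defs`, `WDefs`): `Tor g` (the Torelli group of `Σ_{g,1}`), the
integral homology sphere `M_φ` of `φ ∈ Tor g`, `IsInvariant` (invariants of integral homology
`3`-spheres in terms of the `M_φ`; theorem of Pitsch), `DegreeLE n v` (finite type invariants of order
at most `n`), `Separated n φ ψ` (some rational finite type invariant of order at most `n` has
different values on `M_φ` and `M_ψ`), `Walk L g` and `W.at w` (the products), `Prob p` (the proportion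
of the elements with the property `p`).

`Pool.Agent.Helper69.LW.GDefs`: `Same φ ψ` (`M_φ` and `M_ψ` have the same LMO invariant, i.e. are not
separated; theorem of Le), `grp W` (the subgroup `H` of `Tor g ^ k` generated by the letters), `put W a`
(the element `u₀ a_1 u_1 ⋯ a_k u_k`), `num W N` (the number of values of the LMO invariant on the
homology spheres `M(w)`, `w` of length `N`), `cp W w` (the probability that the LMO invariant of the
random `M(w')` is that of `M(w)`), `Nilp W c` (the LMO invariant of `M_{put a}`, `a ∈ H`, depends only
on the class of `a` in the nilpotent group `H / γ_{c+1}(H)`).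
-/

set_option autoImplicit false

namespace Pool.Agent.Results.MP_27a3bb_gt.GrowthDichotomy

open Pool.Agent.Y466.LM Pool.Agent.Helper69.LW

/-- **Growth dichotomy for the LMO invariant.**  Let `L` be a finite alphabet, each letter of which
stands for `k` elements `x_1, …, x_k` of the Torelli group of genus `g`.  For a word `w` in `L ∪ {∅}`
let `M(w)` be the integral homology sphere given by `u₀ x_1(w) u_1 ⋯ x_k(w) u_k` (`k = 1`, `u₀ = 1`,
letters for the inverses: `w` runs over the balls of a finitely generated subgroup of the Torelli
group).  Let `H` be the group generated by the letters.  Then either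

1. * the LMO invariant of `M_{u₀ a_1 u_1 ⋯ a_k u_k}`, `a ∈ H`, depends only on the class of `a` in
     some nilpotent quotient `H / γ_{c+1}(H)`,
   * it is determined by its part of degree at most `d`, for some `d`: any two of these homology
     spheres which are separated by rational finite type invariants are separated by some of order
     at most `d`,
   * the number of its values on the words of length `N` is at most `C (N + 1)^D`, and one of them is
     taken with probability at least `1 / (C (N + 1)^D)`;

or

2. * it does not factor through any nilpotent quotient `H / γ_{c+1}(H)`,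
   * it is not determined by its part of degree at most `d`, for any `d`, even on the words of one
     length,
   * the number of its values on the words of length `N` is at least `(N + 1)^K` for all large `N`,
     for each `K`,
   * for each `K` the values of probability at least `1 / (N + 1)^K` have together the probability
     `O(1 / √(N + 1))`.

In particular the three properties of 1 are equivalent to each other. -/
theorem result {L : Type} [Fintype L] {g : ℕ} (W : Walk L g) :
    ((∃ c, Nilp W c) ∧
      (∃ d, ∀ a ∈ grp W, ∀ b ∈ grp W, ∀ n, Separated n (put W a) (put W b) →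
        Separated d (put W a) (put W b)) ∧
      (∃ C D : ℕ, ∀ N : ℕ, num W N ≤ C * (N + 1) ^ D ∧
        ∃ w : Fin N → Option L, 1 / ((C : ℝ) * (N + 1) ^ D) ≤ cp W w)) ∨
    ((∀ c, ¬ Nilp W c) ∧
      (∀ d, ∃ (N : ℕ) (w w' : Fin N → Option L) (n : ℕ), Separated n (W.at w) (W.at w') ∧
        ¬ Separated d (W.at w) (W.at w')) ∧
      (∀ K : ℕ, ∃ N₀ : ℕ, ∀ N ≥ N₀, (N + 1) ^ K ≤ num W N) ∧
      (∀ K : ℕ, ∃ C : ℝ, ∀ N : ℕ,
        Prob (fun w : Fin N → Option L => 1 / ((N : ℝ) + 1) ^ K ≤ cp W w) ≤
          C / Real.sqrt (N + 1))) :=
  dichotomy W

end Pool.Agent.Results.MP_27a3bb_gt.GrowthDichotomy
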