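import Pool.Agent.Helper69.LW.Laws

/-!
# Moments of finite type invariants on random products of Torelli elements

Definitions (`Pool.Agent.Y466.LM.Defs`, `WDefs`): `Tor g` (the Torelli group of `Σ_{g,1}`), the
integral homology sphere `M_φ` of `φ ∈ Tor g`, `IsInvariant` (invariants of integral homology
`3`-spheres in terms of the `M_φ`; theorem of Pitsch), `DegreeLE n v` (finite type invariants of order
at most `n`), `Separated n φ ψ` (some rational finite type invariant of order at most `n` has
different values on `M_φ` and `M_ψ`; by the theorem of Le, the LMO invariants of `M_φ` and `M_ψ` are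
different if and only if this is true for some `n`), `Walk L g` and `W.at w` (the random products),
`Prob p` (the proportion of the elements with the property `p`).

`Pool.Agent.Helper69.LW`:

* `Same φ ψ`: `M_φ` and `M_ψ` are separated for no `n`, i.e. they have the same LMO invariant.
* `Mean f`: the mean of the rational valued function `f` on a finite set.
* `grp W`, `put W a`: the group `H` generated by the letters, and, for `a ∈ H`, the element
  `u₀ a_1 u_1 ⋯ a_k u_k` of the Torelli group.
* `Along W n v`: `v` has degree at most `n` along the walk, i.e. the `(n + 1)`-fold differences of the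
  function `a ↦ v(M_{u₀ a_1 u_1 ⋯ a_k u_k})` on `H` vanish.
* `Symm W`: the letters are symmetric (the inverse of each letter is a letter).
* `EqLaw W W' N`: for every homology sphere `M_ψ`, the random `M(w)` and the random `M'(w')` of length
  `N` have the LMO invariant of `M_ψ` with the same probability.
-/

set_option autoImplicit false

namespace Pool.Agent.Results.MP_27a3bb_gt.Moments

open Pool.Agent.Y466.LM Pool.Agent.Helper69.LW

/-- Let `L` be an alphabet with `r` letters, each of which stands for `k` elements `x_1, …, x_k` of
the Torelli group of genus `g`.  For a word `w` of length `N` in `L ∪ {∅}` let `M(w)` be the integral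
homology sphere given by `u₀ x_1(w) u_1 ⋯ x_k(w) u_k` (`k = 1`, `u₀ = 1`: a random walk on the Torelli
group).  Rational finite type invariants of order at most `n` have degree at most `n` along the walk.

* **moments**: for functions `v_i` of degree at most `n_i` along the walk, the mean of the product of
  the `v_i(M(w))` over the words of length `N` is, for all `N`, the value at `N` of one polynomial,
  of degree at most `∑ n_i`, and at most `(∑ n_i) / 2` if the letters are symmetric;
* **fourth moments**: if `v` has degree at most `n` along the walk, then the mean of `v(M(w))^4` is at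
  most `(3 r + 16)^n` times the square of the mean of `v(M(w))^2`, for every length `N`;
* **lower bound**: if `v` has degree at most `m + 1`, but not at most `m` along the walk, then there
  is `δ > 0` such that for every `v'` of degree at most `m` along the walk (e.g. every invariant of
  order at most `m`, every constant) and every `N ≥ m + 1`, the probability that
  `|v(M(w)) - v'(M(w))| ≥ √δ N^{(m + 1) / 2}` is at least `δ`;
* **upper bound**: if the letters are symmetric and `v` has degree at most `m` along the walk, then
  for each `K` there is `C` such that `|v(M(w))| ≥ √t N^{m / 2}` with probability at most `C / t^K`,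
  for all `N > 0`, `t > 0`;
* **separation**: if one `M(w)` of length `N` is separated from `M_ψ` by rational finite type
  invariants of order at most `n`, then this is true for a proportion of at least `(r + 1)^{-n}` of
  the words of length `N`;
* **rigidity**: if the LMO invariants of the random `M(w)` and the random `M'(w')` (`M'` given by any
  alphabet `L'`) have the same law for infinitely many lengths, then they have the same law for all
  lengths. -/
theorem result {L L' : Type} [Fintype L] [Fintype L'] {g g' : ℕ} (W : Walk L g) (W' : Walk L' g') :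
    (∀ (n : ℕ) (v : ∀ g : ℕ, MulAut (Fg g) → ℚ), IsInvariant v → DegreeLE n v → Along W n v) ∧
    (∀ (s : ℕ) (v : Fin s → ∀ g : ℕ, MulAut (Fg g) → ℚ) (n : Fin s → ℕ),
      (∀ i, Along W (n i) (v i)) →
      ∃ P : Polynomial ℚ, P.natDegree ≤ ∑ i, n i ∧ (Symm W → 2 * P.natDegree ≤ ∑ i, n i) ∧
        ∀ N : ℕ, Mean (fun w : Fin N → Option L => ∏ i, v i g (W.at w)) = P.eval (N : ℚ)) ∧
    (∀ (n : ℕ) (v : ∀ g : ℕ, MulAut (Fg g) → ℚ), Along W n v → ∀ N : ℕ,
      Mean (fun w : Fin N → Option L => v g (W.at w) ^ 4) ≤ (3 * (Fintype.card L : ℚ) + 16) ^ n *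
        Mean (fun w : Fin N → Option L => v g (W.at w) ^ 2) ^ 2) ∧
    (∀ (m : ℕ) (v : ∀ g : ℕ, MulAut (Fg g) → ℚ), Along W (m + 1) v → ¬ Along W m v →
      ∃ δ : ℚ, 0 < δ ∧ ∀ v' : ∀ g : ℕ, MulAut (Fg g) → ℚ, Along W m v' → ∀ N : ℕ, m + 1 ≤ N →
        (δ : ℝ) ≤ Prob fun w : Fin N → Option L =>
          δ * (N : ℚ) ^ (m + 1) ≤ (v g (W.at w) - v' g (W.at w)) ^ 2) ∧
    (Symm W → ∀ (m : ℕ) (v : ∀ g : ℕ, MulAut (Fg g) → ℚ), Along W m v → ∀ K : ℕ,
      ∃ C : ℚ, ∀ N : ℕ, 0 < N → ∀ t : ℚ, 0 < t →
        Prob (fun w : Fin N → Option L => t * (N : ℚ) ^ m ≤ v g (W.at w) ^ 2) ≤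
          (C : ℝ) / (t : ℝ) ^ K) ∧
    (∀ (n N g₁ : ℕ) (ψ : Tor g₁) (w₀ : Fin N → Option L), Separated n (W.at w₀) ψ.1 →
      1 / ((Fintype.card L : ℝ) + 1) ^ n ≤
        Prob fun w : Fin N → Option L => Separated n (W.at w) ψ.1) ∧
    ((∀ N₀ : ℕ, ∃ N ≥ N₀, EqLaw W W' N) → ∀ N : ℕ, EqLaw W W' N) := by
  refine ⟨fun n v _ hn => along_of W hn, fun s v n h => moments₂ W v n h,
    fun n v h N => hyper₂ W h N, fun m v h h' => fluct₂ W h h', fun hs m v h K => ?_,
    fun n N g₁ ψ w₀ hs => ?_, fun h N => laws₂ W W' h N⟩
  · obtain ⟨C, -, hC⟩ := tail₂ W hs h K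
    exact ⟨C, hC⟩
  · exact sep₂ W hs

end Pool.Agent.Results.MP_27a3bb_gt.Moments
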