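import Pool.Agent.Helper69.LW.Sharp

/-!
# The LMO invariant on random products of Torelli elements: the optimal rate

Definitions (`Pool.Agent.Y466.LM.Defs`, `WDefs`): `Tor g` (the Torelli group of `Σ_{g,1}`), the
integral homology sphere `M_φ` of `φ ∈ Tor g`, `IsInvariant` (invariants of integral homology
`3`-spheres in terms of the `M_φ`; theorem of Pitsch), `DegreeLE n v` (finite type invariants of order
at most `n`), `Separated n φ ψ` (some rational finite type invariant of order at most `n` has
different values on `M_φ` and `M_ψ`; by the theorem of Le, the LMO invariants of `M_φ` and `M_ψ` are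
different if and only if this is true for some `n`), `Walk L g` and `W.at w` (the random products),
`Prob p` (the proportion of the elements with the property `p`).

`Pool.Agent.Helper69.LW`: `rate₂ L n N = n √(2^n (r + 1)^(2^n) / (N + 1))`, `r` the number of
letters.
-/

set_option autoImplicit false

namespace Pool.Agent.Results.MP_27a3bb_gt.OptimalWalks

open Pool.Agent.Y466.LM Pool.Agent.Helper69.LW

/-- Let `L` be an alphabet with `r` letters, each of which stands for `k` elements `x_1, …, x_k` of
the Torelli group of genus `g`.  For a word `w` of length `N` in `L ∪ {∅}` let `M(w)` be the integral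
homology sphere given by `u₀ x_1(w) u_1 ⋯ x_k(w) u_k` (`k = 1`, `u₀ = 1`: a random walk on the Torelli
group).  Let `M'(w')` be given in the same way by an alphabet `L'`.  Put
`ρ_n(N) = n √(2^n (r + 1)^(2^n) / (N + 1))`, and `ρ'_n(N')` for `L'`.  Then

* **anti-concentration**: if a finite type invariant `v` of order at most `n` with values in a
  torsion-free group is not constant on the `M(w)` (all words of all lengths), then each value is taken
  with probability at most `ρ_n(N)` on the random `M(w)`, `w` of length `N`;
* **zero-one law**: if one pair `M(w), M'(w')` is separated by rational finite type invariants of order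
  at most `n`, then two random ones, of lengths `N` and `N'`, are not separated by those of order at
  most `n` with probability at most `max (ρ_n(N), ρ'_n(N'))`;
* **one homology sphere**: if one `M(w)` is separated from `M_ψ` by rational finite type invariants
  of order at most `n`, then a random one is not with probability at most `ρ_n(N)`;
* **rigidity**: if the probabilities that the random `M(w)`, `w` of length `N`, has the same LMO
  invariant as `M_ψ`, times `√(N + 1)`, are unbounded, then all `M(w)` have the same LMO invariant as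
  `M_ψ`;
* **optimality**: for one letter some homology sphere is taken by the random `M(w)`, `w` of length
  `N`, with probability at least `1 / √(2 (N + 1))`. -/
theorem result {L L' : Type} [Fintype L] [Fintype L'] {g g' : ℕ} (W : Walk L g) (W' : Walk L' g') :
    (∀ {A : Type} [AddCommGroup A], (∀ (n : ℕ) (a : A), n ≠ 0 → n • a = 0 → a = 0) →
      ∀ (n : ℕ) (v : ∀ g : ℕ, MulAut (Fg g) → A), IsInvariant v → DegreeLE n v →
      ∀ {N₀ N₁ : ℕ} (w₀ : Fin N₀ → Option L) (w₁ : Fin N₁ → Option L),
        v g (W.at w₀) ≠ v g (W.at w₁) →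
        ∀ (N : ℕ) (c : A), Prob (fun w : Fin N → Option L => v g (W.at w) = c) ≤ rate₂ L n N) ∧
    (∀ {n N₀ N₀' : ℕ} (w₀ : Fin N₀ → Option L) (w₀' : Fin N₀' → Option L'),
      Separated n (W.at w₀) (W'.at w₀') → ∀ N N' : ℕ,
        Prob (fun z : (Fin N → Option L) × (Fin N' → Option L') =>
          ¬ Separated n (W.at z.1) (W'.at z.2)) ≤ max (rate₂ L n N) (rate₂ L' n N')) ∧
    (∀ ψ : Tor g', (∀ {n N₀ : ℕ} (w₀ : Fin N₀ → Option L), Separated n (W.at w₀) ψ.1 →
        ∀ N : ℕ, Prob (fun w : Fin N → Option L => ¬ Separated n (W.at w) ψ.1) ≤ rate₂ L n N) ∧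
      ((∀ C : ℝ, ∃ N : ℕ, C / Real.sqrt (N + 1) <
          Prob (fun w : Fin N → Option L => ∀ n, ¬ Separated n (W.at w) ψ.1)) →
        ∀ {N : ℕ} (w : Fin N → Option L) (n : ℕ), ¬ Separated n (W.at w) ψ.1)) ∧
    (∀ {g₁ : ℕ} (W₁ : Walk Unit g₁) (N : ℕ), ∃ w₀ : Fin N → Option Unit,
      1 / Real.sqrt (2 * (N + 1)) ≤
        Prob (fun w : Fin N → Option Unit => W₁.at w = W₁.at w₀)) := by
  refine ⟨?_, ?_, fun ψ => ⟨?_, ?_⟩, ?_⟩
  · intro A _ htf n v _ hn N₀ N₁ w₀ w₁ hne N c
    exact anti₂ W htf hn hne N c
  · intro n N₀ N₀' w₀ w₀' hs N N'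
    exact zo₂ W W' hs N N'
  · intro n N₀ w₀ hs N
    exact one₂ W ψ hs N
  · intro h N w n
    exact rigid₂ W ψ h w n
  · intro g₁ W₁ N
    exact sharp₂ W₁ N

end Pool.Agent.Results.MP_27a3bb_gt.OptimalWalks
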