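import Pool.Agent.Helper69.LW.Sharp

/-!
# The LMO invariant on random products of Torelli elements: decay beyond the square root

Definitions (`Pool.Agent.Y466.LM.Defs`, `WDefs`): `Tor g` (the Torelli group of `Σ_{g,1}`), the
integral homology sphere `M_φ` of `φ ∈ Tor g`, `IsInvariant` (invariants of integral homology
`3`-spheres in terms of the `M_φ`; theorem of Pitsch), `DegreeLE n v` (finite type invariants of order
at most `n`), `Separated n φ ψ` (some rational finite type invariant of order at most `n` has
different values on `M_φ` and `M_ψ`; by the theorem of Le, the LMO invariants of `M_φ` and `M_ψ` are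
different if and only if this is true for some `n`), `Walk L g` and `W.at w` (the random products),
`Prob p` (the proportion of the elements with the property `p`).

`Pool.Agent.Helper69.LW.Sees W n`: some rational invariant `v` of homology spheres of order at most
`n`, as the function `a ↦ v(M_{u₀ a_1 u_1 ⋯ a_k u_k})` on the subgroup `H` of `Tor g ^ k` generated by
the letters, is not invariant under the `n`-th term `γ_n(H)` of the lower central series of `H`
(`γ_1(H) = H`; invariants of order at most `n` are invariant under `γ_{n+1}(H)`).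
-/

set_option autoImplicit false

namespace Pool.Agent.Results.MP_27a3bb_gt.SeenDegrees

open Pool.Agent.Y466.LM Pool.Agent.Helper69.LW

/-- Let `L` be an alphabet with `r` letters, each of which stands for `k` elements `x_1, …, x_k` of
the Torelli group of genus `g`.  For a word `w` of length `N` in `L ∪ {∅}` let `M(w)` be the integral
homology sphere given by `u₀ x_1(w) u_1 ⋯ x_k(w) u_k` (`k = 1`, `u₀ = 1`: a random walk on the Torelli
group).

* If the positive integers `n_0 < … < n_{s - 1} ≤ d` are seen by the walk, then for every homology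
  sphere `M_ψ` the probability that the random `M(w)`, `w` of length `N`, is not separated from `M_ψ`
  by rational finite type invariants of order at most `d` is at most
  `(s 2^d (r + 1)^(2^d) / (N + 1))^(s / 2)`.
* If infinitely many integers are seen by the walk, then for each `K` there is a `C` such that for
  all homology spheres `M_ψ` and all `N` the random `M(w)` has the same LMO invariant as `M_ψ` with
  probability at most `C / (N + 1)^K`, and such that two independent random `M(w)`, `M'(w')` (`M'`
  given by any alphabet `L'`, `w'` of any length) have the same LMO invariant with probability at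
  most `C / (N + 1)^K`. -/
theorem result {L L' : Type} [Fintype L] [Fintype L'] {g g' : ℕ} (W : Walk L g) (W' : Walk L' g') :
    (∀ (n : ℕ → ℕ) (s d : ℕ), (∀ i j, i < j → j < s → n i < n j) → (∀ i < s, 0 < n i) →
      (∀ i < s, Sees W (n i)) → (∀ i < s, n i ≤ d) → ∀ (g₁ : ℕ) (ψ : Tor g₁) (N : ℕ),
        Prob (fun w : Fin N → Option L => ¬ Separated d (W.at w) ψ.1) ≤
          Real.sqrt (s * 2 ^ d * ((Fintype.card L : ℝ) + 1) ^ 2 ^ d / (N + 1)) ^ s) ∧
    ((∀ m : ℕ, ∃ n > m, Sees W n) → ∀ K : ℕ, ∃ C : ℝ,
      (∀ (g₁ : ℕ) (ψ : Tor g₁) (N : ℕ),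
        Prob (fun w : Fin N → Option L => ∀ n, ¬ Separated n (W.at w) ψ.1) ≤
          C / (N + 1) ^ K) ∧
      ∀ N N' : ℕ, Prob (fun z : (Fin N → Option L) × (Fin N' → Option L') =>
        ∀ n, ¬ Separated n (W.at z.1) (W'.at z.2)) ≤ C / (N + 1) ^ K) := by
  refine ⟨?_, ?_⟩
  · intro n s d hn h0 hj hd g₁ ψ N
    exact jumps₂ W ψ hn h0 hj hd N
  · intro h K
    obtain ⟨C, hC⟩ := super₂ W h K
    refine ⟨C, fun g₁ ψ N => hC ψ N, fun N N' => ?_⟩
    have h0 : 0 ≤ C / ((N : ℝ) + 1) ^ K := (Prob_nonneg _).trans (hC (g' := g') 1 N)
    exact Prob_fst h0 fun w' => hC (walk W'.u₀ W'.u W'.x w') N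

end Pool.Agent.Results.MP_27a3bb_gt.SeenDegrees
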